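import Pool.Agent.K3h5.FF.Stm

/-!
# Brick EXB (helper81): the probability of the order condition, and independence
-/

set_option autoImplicit false

open MeasureTheory Filter Topology ProbabilityTheory Set

namespace Pool.Agent.K3h81.FF

open Pool.Agent.K3h5.FF

/-- product of measures with densities -/
theorem pi_wd {l : ℕ} (μ : Fin l → Measure ℝ) [∀ i, IsProbabilityMeasure (μ i)]
    (f : Fin l → ℝ → ENNReal) (hf : ∀ i, Measurable (f i))
    (hp : ∀ i, IsProbabilityMeasure ((μ i).withDensity (f i))) :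
    Measure.pi (fun i => (μ i).withDensity (f i)) =
      (Measure.pi μ).withDensity (fun x => ∏ i, f i (x i)) := by
  refine Measure.pi_eq fun s hs => ?_
  rw [withDensity_apply _ (MeasurableSet.univ_pi hs)]
  rw [← lintegral_indicator (MeasurableSet.univ_pi hs)]
  have h1 : ∀ x : Fin l → ℝ, (univ.pi s).indicator (fun x => ∏ i, f i (x i)) x =
      ∏ i, (s i).indicator (f i) (x i) := by
    intro x
    by_cases hx : x ∈ univ.pi s
    · rw [indicator_of_mem hx]
      refine Finset.prod_congr rfl fun i _ => ?_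
      rw [indicator_of_mem (hx i (mem_univ i))]
    · rw [indicator_of_notMem hx]
      have : ∃ i, x i ∉ s i := by
        by_contra hcon
        push Not at hcon
        exact hx fun i _ => hcon i
      obtain ⟨i, hi⟩ := this
      exact (Finset.prod_eq_zero (Finset.mem_univ i) (indicator_of_notMem hi _)).symm
  simp_rw [h1]
  have h2 := lintegral_prod_eq_prod_lintegral_of_indepFun (μ := Measure.pi μ) Finset.univ
    (fun (i : Fin l) (x : Fin l → ℝ) => (s i).indicator (f i) (x i))
    (iIndepFun_pi (X := fun i => (s i).indicator (f i))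
      (fun i => ((hf i).indicator (hs i)).aemeasurable))
    (fun i => ((hf i).indicator (hs i)).comp (measurable_pi_apply i))
  rw [h2]
  refine Finset.prod_congr rfl fun i _ => ?_
  rw [withDensity_apply _ (hs i), ← lintegral_indicator (hs i)]
  have h3 := (measurePreserving_eval μ i)
  rw [← h3.lintegral_comp ((hf i).indicator (hs i))]

theorem dmeas_eq (f : ℝ → ℝ) : dmeas f = (volume.restrict (Ioo (0 : ℝ) 1)).withDensity
    (fun x => ENNReal.ofReal ((Ioo (0 : ℝ) 1).indicator f x)) := by
  unfold dmeas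
  refine withDensity_congr_ae ?_
  filter_upwards [ae_restrict_mem measurableSet_Ioo] with x hx
  rw [indicator_of_mem hx]

theorem meas_ind (f : ℝ → ℝ) (hf : ContinuousOn f (Icc 0 1)) :
    Measurable ((Ioo (0 : ℝ) 1).indicator f) := by
  classical
  have h := ContinuousOn.measurable_piecewise (f := f) (g := (0 : ℝ → ℝ))
    (hf.mono Ioo_subset_Icc_self) continuousOn_const measurableSet_Ioo
  rwa [Set.piecewise_eq_indicator] at h

theorem mass_pos (lam : ℤ → ℝ → ℝ) (hlc : ∀ k, ContinuousOn (lam k) (Icc 0 1))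
    (hlp : ∀ k, ∀ x ∈ Icc (0 : ℝ) 1, 0 < lam k x) (a : Label) : 0 < mass lam a := by
  cases a with
  | inr j => exact one_pos
  | inl k =>
    refine intervalIntegral.intervalIntegral_pos_of_pos_on ?_ ?_ one_pos
    · exact ContinuousOn.intervalIntegrable (by rw [uIcc_of_le zero_le_one]; exact hlc k)
    · intro x hx
      exact hlp k x (Ioo_subset_Icc_self hx)

theorem rho_cont (lam : ℤ → ℝ → ℝ) (phi : ℝ → ℝ) (hlc : ∀ k, ContinuousOn (lam k) (Icc 0 1))
    (hpc : ContinuousOn phi (Icc 0 1)) (a : Label) : ContinuousOn (rho lam phi a) (Icc 0 1) := by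
  cases a with
  | inr j => exact hpc
  | inl k => exact hlc k

theorem rho_pos (lam : ℤ → ℝ → ℝ) (phi : ℝ → ℝ) (hlp : ∀ k, ∀ x ∈ Icc (0 : ℝ) 1, 0 < lam k x)
    (hpp : ∀ x ∈ Icc (0 : ℝ) 1, 0 < phi x) (a : Label) :
    ∀ x ∈ Icc (0 : ℝ) 1, 0 < rho lam phi a x := by
  cases a with
  | inr j => exact hpp
  | inl k => exact hlp k

theorem law (lam : ℤ → ℝ → ℝ) (phi : ℝ → ℝ) {Ω : Type} [MeasurableSpace Ω]
    (μ : Measure Ω) (Y : Idx → Ω → ℝ) (hR : Root lam phi μ Y) {l : ℕ} (u : Fin l → Label)
    (c : Fin l → ℕ) (i : Fin l) : μ.map (Y (Sum.inr (ix u c i))) =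
      dmeas (fun x => rho lam phi (u i) x / mass lam (u i)) := by
  cases hui : u i with
  | inl k =>
    have h : ix u c i = Sum.inl (k, c i) := by simp [ix, hui]
    rw [h, hR.point]
    rfl
  | inr j =>
    have h : ix u c i = Sum.inr j := by simp [ix, hui]
    rw [h, hR.front]
    congr 1
    funext x
    simp [rho, mass]

theorem meas_SM (l : ℕ) : MeasurableSet {x : Fin l → ℝ | StrictMono x} := by
  have : {x : Fin l → ℝ | StrictMono x} = ⋂ i, ⋂ j, ⋂ (_ : i < j), {x : Fin l → ℝ | x i < x j} := by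
    ext x
    simp only [mem_ofPred_eq, mem_iInter]
    exact ⟨fun h i j hij => h hij, fun h i j hij => h i j hij⟩
  rw [this]
  exact MeasurableSet.iInter fun i => MeasurableSet.iInter fun j => MeasurableSet.iInter fun _ =>
    measurableSet_lt (measurable_pi_apply i) (measurable_pi_apply j)

theorem t_EXB : S_EXB := by
  intro lam phi Ω _ μ Y hR hlc hlp hpc hpp l u hu c hc
  have := hR.prob
  classical
  set A : Set Ω := {ω | ∀ i k, u i = Sum.inl k → ((c i : ℕ) : ℝ) < Y (Sum.inl k) ω} with hAdef
  set B : Set Ω := {ω | StrictMono (fun i => Y (Sum.inr (ix u c i)) ω)} with hBdef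
  -- independence
  have hind : μ (A ∩ B) = μ A * μ B := by
    have h1 := indep_iSup_of_disjoint (m := fun i => MeasurableSpace.comap (Y i) inferInstance)
      (fun i => (hR.meas i).comap_le) hR.indep (S := Set.range (Sum.inl : ℤ → Idx))
      (T := Set.range (Sum.inr : (ℤ × ℕ) ⊕ ℕ → Idx)) (by
        rw [Set.disjoint_left]
        rintro _ ⟨k, rfl⟩ ⟨m, hm⟩
        exact Sum.inr_ne_inl hm)
    rw [Indep_iff] at h1
    refine h1 A B ?_ ?_
    · have hA1 : A = ⋂ i : Fin l, ⋂ k : ℤ, ⋂ (_ : u i = Sum.inl k),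
          (Y (Sum.inl k)) ⁻¹' (Ioi ((c i : ℕ) : ℝ)) := by
        ext ω
        simp only [hAdef, mem_ofPred_eq, mem_iInter, mem_preimage, mem_Ioi]
      rw [hA1]
      refine MeasurableSet.iInter fun i => MeasurableSet.iInter fun k => MeasurableSet.iInter
        fun _ => ?_
      exact (le_iSup₂ (f := fun (i : Idx) (_ : i ∈ Set.range (Sum.inl : ℤ → Idx)) =>
        MeasurableSpace.comap (Y i) inferInstance) (Sum.inl k) ⟨k, rfl⟩) _
          ⟨Ioi _, measurableSet_Ioi, rfl⟩
    · have hB1 : B = ⋂ i : Fin l, ⋂ j : Fin l, ⋂ (_ : i < j),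
          {ω | Y (Sum.inr (ix u c i)) ω < Y (Sum.inr (ix u c j)) ω} := by
        ext ω
        simp only [hBdef, mem_ofPred_eq, mem_iInter]
        exact ⟨fun h i j hij => h hij, fun h i j hij => h i j hij⟩
      rw [hB1]
      have hm : ∀ x : (ℤ × ℕ) ⊕ ℕ, Measurable[⨆ i ∈ Set.range (Sum.inr : (ℤ × ℕ) ⊕ ℕ → Idx),
          MeasurableSpace.comap (Y i) inferInstance] (Y (Sum.inr x)) := by
        intro x
        exact Measurable.mono (comap_measurable (Y (Sum.inr x)))
          (le_iSup₂ (f := fun (i : Idx) (_ : i ∈ Set.range (Sum.inr : (ℤ × ℕ) ⊕ ℕ → Idx)) =>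
            MeasurableSpace.comap (Y i) inferInstance) (Sum.inr x) ⟨x, rfl⟩) le_rfl
      refine MeasurableSet.iInter fun i => MeasurableSet.iInter fun j => MeasurableSet.iInter
        fun _ => ?_
      exact measurableSet_lt (hm _) (hm _)
  -- the order condition
  have hB : μ B * ∏ i, ENNReal.ofReal (mass lam (u i)) = ENNReal.ofReal (mom lam phi u) := by
    have hX : iIndepFun (fun i : Fin l => Y (Sum.inr (ix u c i))) μ :=
      hR.indep.precomp (g := fun i : Fin l => (Sum.inr (ix u c i) : Idx))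
        (Sum.inr_injective.comp hc)
    have hm : μ.map (fun ω (i : Fin l) => Y (Sum.inr (ix u c i)) ω) =
        Measure.pi (fun i => μ.map (Y (Sum.inr (ix u c i)))) :=
      (iIndepFun_iff_map_fun_eq_pi_map (fun i => (hR.meas _).aemeasurable)).1 hX
    have hlaw : ∀ i : Fin l, μ.map (Y (Sum.inr (ix u c i))) =
        (volume.restrict (Ioo (0 : ℝ) 1)).withDensity (fun x => ENNReal.ofReal
          ((Ioo (0 : ℝ) 1).indicator (fun x => rho lam phi (u i) x / mass lam (u i)) x)) := by
      intro i
      rw [law lam phi μ Y hR u c i, dmeas_eq]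
    have hpr : IsProbabilityMeasure (volume.restrict (Ioo (0 : ℝ) 1)) :=
      ⟨by simp⟩
    have hmeasd : ∀ i : Fin l, Measurable (fun x => ENNReal.ofReal
        ((Ioo (0 : ℝ) 1).indicator (fun x => rho lam phi (u i) x / mass lam (u i)) x)) := by
      intro i
      exact (meas_ind _ ((rho_cont lam phi hlc hpc (u i)).div_const _)).ennreal_ofReal
    have hμB : μ B = ∫⁻ x in {x : Fin l → ℝ | StrictMono x}, ∏ i, ENNReal.ofReal
        ((Ioo (0 : ℝ) 1).indicator (fun x => rho lam phi (u i) x / mass lam (u i)) (x i))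
        ∂(Measure.pi fun _ : Fin l => volume.restrict (Ioo (0 : ℝ) 1)) := by
      have h1 : μ B = (μ.map (fun ω (i : Fin l) => Y (Sum.inr (ix u c i)) ω))
          {x : Fin l → ℝ | StrictMono x} := by
        rw [Measure.map_apply (measurable_pi_lambda _ fun i => hR.meas _) (meas_SM l)]
        rfl
      rw [h1, hm]
      simp_rw [hlaw]
      rw [pi_wd (fun _ : Fin l => volume.restrict (Ioo (0 : ℝ) 1)) _ hmeasd ?_,
        withDensity_apply _ (meas_SM l)]
      intro i
      rw [← hlaw i]
      exact Measure.isProbabilityMeasure_map (hR.meas _).aemeasurable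
    have hmass := fun i => mass_pos lam hlc hlp (u i)
    rw [hμB, ← lintegral_mul_const' _ _ (by
      refine (ENNReal.prod_lt_top fun i _ => ENNReal.ofReal_lt_top).ne)]
    have h3 : ∀ x : Fin l → ℝ, (∏ i, ENNReal.ofReal
        ((Ioo (0 : ℝ) 1).indicator (fun x => rho lam phi (u i) x / mass lam (u i)) (x i))) *
        ∏ i, ENNReal.ofReal (mass lam (u i)) =
        (univ.pi fun _ : Fin l => Ioo (0 : ℝ) 1).indicator
          (fun x => ENNReal.ofReal (∏ i, rho lam phi (u i) (x i))) x := by
      intro x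
      rw [← Finset.prod_mul_distrib]
      by_cases hx : x ∈ univ.pi fun _ : Fin l => Ioo (0 : ℝ) 1
      · rw [indicator_of_mem hx, ENNReal.ofReal_prod_of_nonneg (fun i _ =>
          (rho_pos lam phi hlp hpp (u i) _ (Ioo_subset_Icc_self (hx i (mem_univ i)))).le)]
        refine Finset.prod_congr rfl fun i _ => ?_
        rw [indicator_of_mem (hx i (mem_univ i)), ← ENNReal.ofReal_mul
          (div_nonneg (rho_pos lam phi hlp hpp (u i) _
            (Ioo_subset_Icc_self (hx i (mem_univ i)))).le (hmass i).le),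
          div_mul_cancel₀ _ (hmass i).ne']
      · rw [indicator_of_notMem hx]
        have : ∃ i, x i ∉ Ioo (0 : ℝ) 1 := by
          by_contra hcon
          push Not at hcon
          exact hx fun i _ => hcon i
        obtain ⟨i, hi⟩ := this
        refine Finset.prod_eq_zero (Finset.mem_univ i) ?_
        rw [indicator_of_notMem hi, ENNReal.ofReal_zero, zero_mul]
    simp_rw [h3]
    have hmu : MeasurableSet (univ.pi fun _ : Fin l => Ioo (0 : ℝ) 1) :=
      MeasurableSet.univ_pi fun _ => measurableSet_Ioo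
    have hset : {x : Fin l → ℝ | StrictMono x ∧ ∀ i, x i ∈ Ioo (0 : ℝ) 1} =
        {x : Fin l → ℝ | StrictMono x} ∩ univ.pi fun _ : Fin l => Ioo (0 : ℝ) 1 := by
      ext x
      simp [Set.mem_pi]
    rw [← Measure.restrict_pi_pi, ← volume_pi, Measure.restrict_restrict (meas_SM l),
      lintegral_indicator hmu, Measure.restrict_restrict hmu, mom, if_pos hu, hset,
      ofReal_integral_eq_lintegral_ofReal]
    · congr 2
      ext x
      simp only [mem_inter_iff]
      tauto
    · have hcont : ContinuousOn (fun x : Fin l → ℝ => ∏ i, rho lam phi (u i) (x i))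
          (univ.pi fun _ : Fin l => Icc (0 : ℝ) 1) := by
        refine continuousOn_finsetProd _ fun i _ => ?_
        exact (rho_cont lam phi hlc hpc (u i)).comp (continuous_apply i).continuousOn
          (fun x hx => hx i (mem_univ i))
      have hint := hcont.integrableOn_compact (μ := volume)
        (isCompact_univ_pi fun _ => isCompact_Icc)
      refine hint.mono_set ?_
      rintro x ⟨-, hx⟩ i hi
      exact Ioo_subset_Icc_self (hx i hi)
    · filter_upwards [ae_restrict_mem ((meas_SM l).inter hmu)] with x hx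
      exact Finset.prod_nonneg fun i _ =>
        (rho_pos lam phi hlp hpp (u i) _ (Ioo_subset_Icc_self (hx.2 i (mem_univ i)))).le
  have hAB : {ω | (∀ i k, u i = Sum.inl k → ((c i : ℕ) : ℝ) < Y (Sum.inl k) ω) ∧
      StrictMono (fun i => Y (Sum.inr (ix u c i)) ω)} = A ∩ B := rfl
  rw [hAB, hind, mul_assoc, hB]

end Pool.Agent.K3h81.FF

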